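import Pool.Agent.Helper61.PV.St

/-!
# Project PV, module App: primes in progressions from the Siegel-Walfisz theorem
-/

set_option autoImplicit false

namespace Pool.Agent.Helper70.PV

open Pool.Agent.Helper61.PV Finset
open Pool.Agent.Helper48.BK (th StSW)

theorem image_App (y q N : ℕ) (hq : 1 ≤ q) :
    (Ioc y (y + q * N)).filter (fun n => n ≡ y + 1 [MOD q]) =
      (range N).image (fun u => y + 1 + q * u) := by
  ext n
  simp only [mem_filter, mem_Ioc, mem_image, mem_range]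
  constructor
  · rintro ⟨⟨h1, h2⟩, h3⟩
    have h4 : y + 1 ≤ n := h1
    obtain ⟨u, hu⟩ := (Nat.modEq_iff_dvd' h4).1 h3.symm
    refine ⟨u, ?_, by omega⟩
    by_contra h5
    have h6 : q * N ≤ q * u := Nat.mul_le_mul_left q (not_lt.1 h5)
    omega
  · rintro ⟨u, hu, rfl⟩
    have h6 : q * (u + 1) ≤ q * N := Nat.mul_le_mul_left q hu
    rw [Nat.mul_add, Nat.mul_one] at h6
    refine ⟨⟨by omega, by omega⟩, ?_⟩
    exact ((Nat.modEq_iff_dvd' (Nat.le_add_right (y + 1) (q * u))).2 (by simp)).symm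

theorem sum_App (f : ℕ → ℝ) (y q N : ℕ) (hq : 1 ≤ q) :
    ∑ n ∈ (Ioc 0 (y + q * N)).filter (fun n => n ≡ y + 1 [MOD q]), f n =
      ∑ n ∈ (Ioc 0 y).filter (fun n => n ≡ y + 1 [MOD q]), f n +
        ∑ u ∈ range N, f (y + 1 + q * u) := by
  have h1 : Ioc 0 (y + q * N) = Ioc 0 y ∪ Ioc y (y + q * N) :=
    (Finset.Ioc_union_Ioc_eq_Ioc (Nat.zero_le y) (Nat.le_add_right _ _)).symm
  have h2 : Disjoint ((Ioc 0 y).filter (fun n => n ≡ y + 1 [MOD q]))
      ((Ioc y (y + q * N)).filter (fun n => n ≡ y + 1 [MOD q])) := by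
    apply Finset.disjoint_filter_filter
    rw [Finset.disjoint_left]
    intro n hn hn'
    rw [mem_Ioc] at hn hn'
    omega
  rw [h1, filter_union, sum_union h2, image_App y q N hq, sum_image]
  intro u _ v _ huv
  have h3 : q * u = q * v := by
    simp only at huv
    omega
  exact Nat.eq_of_mul_eq_mul_left (by omega) h3

theorem hApp (hSW : Pool.Agent.Helper48.BK.StSW) : StApp := by
  intro A B
  obtain ⟨x₀, h⟩ := hSW A B
  refine ⟨x₀, ?_⟩
  intro x q N hx hq hqB y hy hyx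
  obtain ⟨y, rfl⟩ : ∃ y', y = y' + 1 := ⟨y - 1, by omega⟩
  have h1 := h x (y + q * N) q (y + 1) hx (by omega) hq hqB
  have h2 := h x y q (y + 1) hx (by omega) hq hqB
  rw [sum_App th y q N hq] at h1
  have e : 2 * (x : ℝ) / Real.log x ^ A = x / Real.log x ^ A + x / Real.log x ^ A := by ring
  rw [e]
  by_cases hc : Nat.Coprime (y + 1) q
  · rw [if_pos hc] at h1 h2 ⊢
    rw [abs_le] at h1 h2 ⊢
    have e2 : ((y + q * N : ℕ) : ℝ) / (Nat.totient q : ℝ) =
        (y : ℝ) / Nat.totient q + (q : ℝ) * N / Nat.totient q := by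
      push_cast
      ring
    rw [e2] at h1
    constructor <;> linarith [h1.1, h1.2, h2.1, h2.2]
  · rw [if_neg hc] at h1 h2 ⊢
    rw [abs_le] at h1 h2 ⊢
    constructor <;> linarith [h1.1, h1.2, h2.1, h2.2]

end Pool.Agent.Helper70.PV
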