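import Pool.Agent.Helper61.PV.St

/-!
# Project PV, module Le1: small coefficients are rare
-/

set_option autoImplicit false

namespace Pool.Agent.Helper70.PV

open Pool.Agent.Helper61.PV Finset

theorem card_Le1 {α : Type*} (s : Finset α) (P : α → Prop) [DecidablePred P] :
    Nat.card {x // x ∈ s ∧ P x} = (s.filter P).card :=
  Nat.subtype_card _ (fun x => by simp)

/-- the number of integers of an interval with square less than `H` -/
theorem sq_Le1 (H : ℕ) (hH : 1 ≤ H) (n : ℤ) (hn : n ^ 2 < H) :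
    -(Nat.sqrt H : ℤ) ≤ n ∧ n ≤ Nat.sqrt H := by
  have h1 : n.natAbs * n.natAbs < H := by
    have : ((n.natAbs * n.natAbs : ℕ) : ℤ) < H := by
      push_cast
      rw [← sq, sq_abs]
      exact hn
    exact_mod_cast this
  have h2 : n.natAbs ≤ Nat.sqrt H := Nat.le_sqrt.2 h1.le
  omega

theorem bd_Le1 (d H : ℕ) (hH : 1 ≤ H) (i : Fin (d + 1)) :
    (Nat.card {n : ℤ // n ∈ Ico ((fun i : Fin (d + 1) => if (i : ℕ) < d then -(H : ℤ) else 1) i)
        ((fun i : Fin (d + 1) => if (i : ℕ) < d then -(H : ℤ) else 1) i +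
          ((fun i : Fin (d + 1) => if (i : ℕ) < d then 2 * H + 1 else H) i : ℕ)) ∧
        n ^ 2 < H} : ℝ) ≤
      2 / √H * ((fun i : Fin (d + 1) => if (i : ℕ) < d then 2 * H + 1 else H) i : ℕ) := by
  have hs0 : (0:ℝ) < √H := Real.sqrt_pos.2 (by exact_mod_cast hH)
  have hs1 : (1:ℝ) ≤ √H := by
    rw [Real.one_le_sqrt]
    exact_mod_cast hH
  have hss : √(H:ℝ) * √H = H := Real.mul_self_sqrt (Nat.cast_nonneg H)
  have hsq : ((Nat.sqrt H : ℕ) : ℝ) ≤ √H := Real.nat_sqrt_le_real_sqrt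
  by_cases hi : (i : ℕ) < d
  · simp only [hi, if_true]
    have h1 : Nat.card {n : ℤ // n ∈ Ico (-(H:ℤ)) (-(H:ℤ) + ((2 * H + 1 : ℕ) : ℤ)) ∧ n ^ 2 < H} ≤
        2 * Nat.sqrt H + 1 := by
      classical
      rw [card_Le1]
      calc _ ≤ (Icc (-(Nat.sqrt H : ℤ)) (Nat.sqrt H)).card := by
            apply card_le_card
            intro n hn
            rw [mem_filter] at hn
            rw [mem_Icc]
            exact sq_Le1 H hH n hn.2
        _ = 2 * Nat.sqrt H + 1 := by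
            rw [Int.card_Icc]
            omega
    calc ((Nat.card {n : ℤ // n ∈ Ico (-(H:ℤ)) (-(H:ℤ) + ((2 * H + 1 : ℕ) : ℤ)) ∧ n ^ 2 < H} : ℕ) : ℝ)
        ≤ ((2 * Nat.sqrt H + 1 : ℕ) : ℝ) := by exact_mod_cast h1
      _ = 2 * (Nat.sqrt H : ℝ) + 1 := by push_cast; ring
      _ ≤ 4 * √H := by linarith
      _ = 2 / √H * (2 * (√H * √H)) := by field_simp; ring
      _ = 2 / √H * (2 * H) := by rw [hss]
      _ ≤ 2 / √H * ((2 * H + 1 : ℕ) : ℝ) := by
          apply mul_le_mul_of_nonneg_left _ (by positivity)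
          push_cast
          linarith
  · simp only [hi, if_false]
    have h1 : Nat.card {n : ℤ // n ∈ Ico (1:ℤ) (1 + (H : ℤ)) ∧ n ^ 2 < H} ≤ Nat.sqrt H := by
      classical
      rw [card_Le1]
      calc _ ≤ (Icc (1:ℤ) (Nat.sqrt H)).card := by
            apply card_le_card
            intro n hn
            rw [mem_filter, mem_Ico] at hn
            rw [mem_Icc]
            exact ⟨hn.1.1, (sq_Le1 H hH n hn.2).2⟩
        _ = Nat.sqrt H := by
            rw [Int.card_Icc]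
            omega
    calc ((Nat.card {n : ℤ // n ∈ Ico (1:ℤ) (1 + (H : ℤ)) ∧ n ^ 2 < H} : ℕ) : ℝ)
        ≤ (Nat.sqrt H : ℝ) := by exact_mod_cast h1
      _ ≤ 2 * √H := by linarith
      _ = 2 / √H * (√H * √H) := by field_simp
      _ = 2 / √H * H := by rw [hss]

theorem hLe1 (hFib : StFib) : StLe1 := by
  classical
  intro d H hH
  have hs0 : (0:ℝ) < √H := Real.sqrt_pos.2 (by exact_mod_cast hH)
  have key : ∀ i : Fin (d + 1), (Nat.card {c : Fin (d + 1) → ℤ // c ∈ Bxx d H ∧ c i ^ 2 < H} : ℝ) ≤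
      2 / √H * #(Bxx d H) := by
    intro i
    set A : Fin (d + 1) → ℤ := fun i => if (i : ℕ) < d then -(H : ℤ) else 1 with hA
    set h : Fin (d + 1) → ℕ := fun i => if (i : ℕ) < d then 2 * H + 1 else H with hh
    have hB : Bxx d H = Bx A h := rfl
    have h1 := hFib d A h i (fun c => c i ^ 2 < H)
    have h2 : ∀ g ∈ Bx A h, (Nat.card {n : ℤ // n ∈ Ico (A i) (A i + h i) ∧
        (Function.update g i n) i ^ 2 < (H:ℤ)} : ℝ) ≤ 2 / √H * h i := by
      intro g _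
      simp only [Function.update_self]
      exact bd_Le1 d H hH i
    have h3 : (h i : ℝ) * (Nat.card {g : Fin (d + 1) → ℤ // g ∈ Bx A h ∧ g i ^ 2 < (H:ℤ)} : ℝ) ≤
        #(Bx A h) * (2 / √H * h i) := by
      calc (h i : ℝ) * (Nat.card {g : Fin (d + 1) → ℤ // g ∈ Bx A h ∧ g i ^ 2 < (H:ℤ)} : ℝ)
          = ((h i * Nat.card {g : Fin (d + 1) → ℤ // g ∈ Bx A h ∧ g i ^ 2 < (H:ℤ)} : ℕ) : ℝ) := by
            push_cast; ring
        _ = ((∑ g ∈ Bx A h, Nat.card {n : ℤ // n ∈ Ico (A i) (A i + h i) ∧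
              (Function.update g i n) i ^ 2 < (H:ℤ)} : ℕ) : ℝ) := by rw [← h1]
        _ = ∑ g ∈ Bx A h, (Nat.card {n : ℤ // n ∈ Ico (A i) (A i + h i) ∧
              (Function.update g i n) i ^ 2 < (H:ℤ)} : ℝ) := by push_cast; rfl
        _ ≤ ∑ g ∈ Bx A h, (2 / √H * h i) := Finset.sum_le_sum h2
        _ = #(Bx A h) * (2 / √H * h i) := by rw [sum_const, nsmul_eq_mul]
    have hpos : (0:ℝ) < h i := by
      have : 0 < h i := by
        rw [hh]
        simp only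
        split_ifs <;> omega
      exact_mod_cast this
    rw [hB]
    have h4 : (h i : ℝ) * (Nat.card {g : Fin (d + 1) → ℤ // g ∈ Bx A h ∧ g i ^ 2 < (H:ℤ)} : ℝ) ≤
        h i * (2 / √H * #(Bx A h)) := by
      calc _ ≤ _ := h3
        _ = _ := by ring
    exact le_of_mul_le_mul_left h4 hpos
  have hU : Nat.card {c : Fin (d + 1) → ℤ // c ∈ Bxx d H ∧ ∃ i, c i ^ 2 < (H:ℤ)} ≤
      ∑ i : Fin (d + 1), Nat.card {c : Fin (d + 1) → ℤ // c ∈ Bxx d H ∧ c i ^ 2 < (H:ℤ)} := by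
    simp only [card_Le1]
    calc ((Bxx d H).filter (fun c => ∃ i, c i ^ 2 < (H:ℤ))).card
        ≤ (univ.biUnion (fun i : Fin (d + 1) => (Bxx d H).filter (fun c => c i ^ 2 < (H:ℤ)))).card := by
          apply card_le_card
          intro c hc
          rw [mem_filter] at hc
          obtain ⟨i, hi⟩ := hc.2
          rw [mem_biUnion]
          exact ⟨i, mem_univ _, mem_filter.2 ⟨hc.1, hi⟩⟩
      _ ≤ _ := card_biUnion_le
  calc (Nat.card {c : Fin (d + 1) → ℤ // c ∈ Bxx d H ∧ ∃ i, c i ^ 2 < (H:ℤ)} : ℝ)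
      ≤ ((∑ i : Fin (d + 1), Nat.card {c : Fin (d + 1) → ℤ // c ∈ Bxx d H ∧ c i ^ 2 < (H:ℤ)} : ℕ) : ℝ) := by
        exact_mod_cast hU
    _ = ∑ i : Fin (d + 1), (Nat.card {c : Fin (d + 1) → ℤ // c ∈ Bxx d H ∧ c i ^ 2 < (H:ℤ)} : ℝ) := by
        push_cast; rfl
    _ ≤ ∑ i : Fin (d + 1), (2 / √H * #(Bxx d H)) := Finset.sum_le_sum (fun i _ => key i)
    _ = 2 * (d + 1) / √H * #(Bxx d H) := by
        rw [sum_const, card_univ, Fintype.card_fin, nsmul_eq_mul]
        push_cast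
        ring

end Pool.Agent.Helper70.PV
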